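import Pool.Agent.helper70.GB.SpecN

set_option linter.all false
set_option autoImplicit false

/-!
# CB (MP_7933bc_al): induction step, case B
-/

open Matrix Polynomial

namespace GB

universe u

theorem CB_transfer {n : ℕ} {A B : Type*} [CommRing A] [CommRing B] (e : A ≃+* B)
    (h : AllComp n A) : AllComp n B := by
  intro v hv
  have h1 : Comp (fun i => e.symm (v i)) := h _ (hv.map (e.symm : B →+* A))
  have h2 := h1.map (e : A →+* B)
  have h3 : (fun i => (e : A →+* B) (e.symm (v i))) = v := by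
    funext i
    exact e.apply_symm_apply (v i)
  rwa [h3] at h2

/-- coordinates with respect to `ℤ z ⊕ L'` -/
theorem CB_coord {L : Type*} [AddCommGroup L] (z : L) (L' : AddSubgroup L)
    (h1 : ∀ m : L, ∃ (k : ℤ) (m' : L), m' ∈ L' ∧ m = k • z + m')
    (h2 : ∀ (k : ℤ), k • z ∈ L' → k = 0) :
    ∃ (K : L →+ ℤ) (p : L →+ L'), (∀ m, m = K m • z + (p m : L)) := by
  choose K p hp hm using h1
  have huniq : ∀ (k k' : ℤ) (x x' : L), x ∈ L' → x' ∈ L' → k • z + x = k' • z + x' →
      k = k' ∧ x = x' := by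
    intro k k' x x' hx hx' h
    have h3 : (k - k') • z = x' - x := by
      rw [sub_smul, sub_eq_sub_iff_add_eq_add, h]
      abel
    have h4 : k - k' = 0 := h2 _ (by rw [h3]; exact L'.sub_mem hx' hx)
    have h5 : k = k' := by omega
    refine ⟨h5, ?_⟩
    rw [h5] at h
    exact add_left_cancel h
  have hadd : ∀ m m' : L, K (m + m') = K m + K m' ∧ p (m + m') = p m + p m' := by
    intro m m'
    refine huniq _ _ _ _ (hp _) (L'.add_mem (hp _) (hp _)) ?_
    rw [← hm (m + m'), add_smul]
    nth_rewrite 1 [hm m, hm m']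
    abel
  exact ⟨AddMonoidHom.mk' K fun m m' => (hadd m m').1,
    AddMonoidHom.mk' (fun m => (⟨p m, hp m⟩ : L')) fun m m' => Subtype.ext (hadd m m').2, hm⟩

section CB_gen

variable {R : Type*} [CommRing R] {N : Type*} [AddCommMonoid N] {P : Type*} [AddCommMonoid P]
  {D : Type*} [CommRing D] {F : Type*} [CommRing F]

/-- the monoid homomorphism used in `CB_phi` -/
noncomputable def CB_phiM (U : Dˣ) (K : N →+ ℤ) (q : N →+ P) :
    Multiplicative N →* AddMonoidAlgebra D P where
  toFun := fun m => AddMonoidAlgebra.single (q (Multiplicative.toAdd m))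
    ((U ^ (K (Multiplicative.toAdd m)) : Dˣ) : D)
  map_one' := by
    rw [toAdd_one, map_zero, map_zero, zpow_zero]
    rfl
  map_mul' := fun a b => by
    rw [toAdd_mul, map_add, map_add, _root_.zpow_add, AddMonoidAlgebra.single_mul_single]
    rfl

/-- the map from `R[N]` to `D[P]` -/
noncomputable def CB_phi (f : R →+* D) (U : Dˣ) (K : N →+ ℤ) (q : N →+ P) :
    AddMonoidAlgebra R N →+* AddMonoidAlgebra D P :=
  AddMonoidAlgebra.liftNCRingHom
    ((AddMonoidAlgebra.singleZeroRingHom : D →+* AddMonoidAlgebra D P).comp f)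
    (CB_phiM U K q) (fun _ _ => mul_comm _ _)

theorem CB_phi_single (f : R →+* D) (U : Dˣ) (K : N →+ ℤ) (q : N →+ P) (m : N) (c : R) :
    CB_phi f U K q (AddMonoidAlgebra.single m c) = AddMonoidAlgebra.single (q m)
      (f c * ((U ^ (K m) : Dˣ) : D)) := by
  unfold CB_phi
  rw [AddMonoidAlgebra.liftNCRingHom_single]
  show AddMonoidAlgebra.single 0 (f c) * AddMonoidAlgebra.single (q m) _ = _
  rw [AddMonoidAlgebra.single_mul_single, zero_add]
  rfl

/-- the monoid homomorphism used in `CB_psi` -/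
noncomputable def CB_psiM (A : AddMonoidAlgebra R N →+* F) (g : P →+ N) :
    Multiplicative P →* F where
  toFun := fun x => A (AddMonoidAlgebra.single (g (Multiplicative.toAdd x)) 1)
  map_one' := by
    rw [toAdd_one, map_zero]
    exact map_one A
  map_mul' := fun x y => by
    rw [toAdd_mul, map_add, ← map_mul, AddMonoidAlgebra.single_mul_single, one_mul]

theorem CB_psiM_apply (A : AddMonoidAlgebra R N →+* F) (g : P →+ N) (x : P) :
    CB_psiM A g (Multiplicative.ofAdd x) = A (AddMonoidAlgebra.single (g x) 1) := rfl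

/-- the map from `D[P]` to `F` -/
noncomputable def CB_psi (f' : D →+* F) (A : AddMonoidAlgebra R N →+* F) (g : P →+ N) :
    AddMonoidAlgebra D P →+* F :=
  AddMonoidAlgebra.liftNCRingHom f' (CB_psiM A g) (fun _ _ => mul_comm _ _)

theorem CB_psi_single (f' : D →+* F) (A : AddMonoidAlgebra R N →+* F) (g : P →+ N) (x : P)
    (c : D) : CB_psi f' A g (AddMonoidAlgebra.single x c) =
      f' c * A (AddMonoidAlgebra.single (g x) 1) := by
  unfold CB_psi
  rw [AddMonoidAlgebra.liftNCRingHom_single, CB_psiM_apply]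

theorem CB_zpow (f' : D →+* F) (A : AddMonoidAlgebra R N →+* F) (U : Dˣ) (zk : ℤ →+ N)
    (h : f' (U : D) = A (AddMonoidAlgebra.single (zk 1) 1)) (k : ℤ) :
    f' ((U ^ k : Dˣ) : D) = A (AddMonoidAlgebra.single (zk k) 1) := by
  have h1 : (f' : D →* F).comp ((Units.coeHom D).comp (zpowersHom Dˣ U)) = CB_psiM A zk := by
    refine MonoidHom.ext_mint ?_
    rw [CB_psiM_apply, ← h]
    show f' ((zpowersHom Dˣ U (Multiplicative.ofAdd 1) : Dˣ) : D) = _
    rw [zpowersHom_apply, toAdd_ofAdd, zpow_one]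
  have h2 := DFunLike.congr_fun h1 (Multiplicative.ofAdd k)
  rw [CB_psiM_apply] at h2
  rw [← h2]
  rfl

theorem CB_psi_phi (f : R →+* D) (f' : D →+* F) (A : AddMonoidAlgebra R N →+* F) (U : Dˣ)
    (K : N →+ ℤ) (q : N →+ P) (g : P →+ N) (zk : ℤ →+ N)
    (h1 : ∀ c, f' (f c) = A (AddMonoidAlgebra.single 0 c))
    (h2 : f' (U : D) = A (AddMonoidAlgebra.single (zk 1) 1))
    (h3 : ∀ m, zk (K m) + g (q m) = m) (x : AddMonoidAlgebra R N) :
    CB_psi f' A g (CB_phi f U K q x) = A x := by
  induction x using AddMonoidAlgebra.induction_linear with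
  | zero => rw [map_zero, map_zero, map_zero]
  | add a b ha hb => rw [map_add, map_add, map_add, ha, hb]
  | single m c =>
    rw [CB_phi_single, CB_psi_single, map_mul, h1, CB_zpow f' A U zk h2, ← map_mul, ← map_mul,
      AddMonoidAlgebra.single_mul_single, AddMonoidAlgebra.single_mul_single, mul_one, mul_one,
      zero_add, h3]

open Classical in
/-- the monoid homomorphism used in `CB_rho` -/
noncomputable def CB_rhoM (R : Type*) [CommRing R] (K : N →+ ℤ) (q : N →+ P)
    (hK : ∀ m, q m = 0 → 0 ≤ K m) (hq : ∀ m m', q (m + m') = 0 → q m = 0) :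
    Multiplicative N →* R[X] where
  toFun := fun m => if q (Multiplicative.toAdd m) = 0 then X ^ (K (Multiplicative.toAdd m)).toNat
    else 0
  map_one' := by
    rw [toAdd_one, map_zero, map_zero, if_pos rfl]
    simp
  map_mul' := fun x y => by
    rw [toAdd_mul]
    by_cases hx : q (Multiplicative.toAdd x) = 0
    · by_cases hy : q (Multiplicative.toAdd y) = 0
      · have hxy : q (Multiplicative.toAdd x + Multiplicative.toAdd y) = 0 := by
          rw [map_add, hx, hy, add_zero]
        rw [if_pos hx, if_pos hy, if_pos hxy, map_add, Int.toNat_add (hK _ hx) (hK _ hy), pow_add]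
      · have hxy : ¬ q (Multiplicative.toAdd x + Multiplicative.toAdd y) = 0 := by
          rw [map_add, hx, zero_add]
          exact hy
        rw [if_neg hy, if_neg hxy, mul_zero]
    · have hxy : ¬ q (Multiplicative.toAdd x + Multiplicative.toAdd y) = 0 :=
        fun h => hx (hq _ _ h)
      rw [if_neg hx, if_neg hxy, zero_mul]

/-- the face retraction to `R[X]` -/
noncomputable def CB_rho (R : Type*) [CommRing R] (K : N →+ ℤ) (q : N →+ P)
    (hK : ∀ m, q m = 0 → 0 ≤ K m) (hq : ∀ m m', q (m + m') = 0 → q m = 0) :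
    AddMonoidAlgebra R N →+* R[X] :=
  AddMonoidAlgebra.liftNCRingHom C (CB_rhoM R K q hK hq) (fun _ _ => mul_comm _ _)

theorem CB_rho_coeff (A : R[X] →+* D) (U : Dˣ) (hU : (U : D) = A X) (K : N →+ ℤ) (q : N →+ P)
    (hK : ∀ m, q m = 0 → 0 ≤ K m) (hq : ∀ m m', q (m + m') = 0 → q m = 0)
    (x : AddMonoidAlgebra R N) :
    (CB_phi (A.comp C) U K q x).coeff 0 = A (CB_rho R K q hK hq x) := by
  classical
  induction x using AddMonoidAlgebra.induction_linear with
  | zero =>
    rw [map_zero (CB_phi (A.comp C) U K q), map_zero (CB_rho R K q hK hq), map_zero A]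
    rfl
  | add a b ha hb => rw [map_add, map_add, map_add, AddMonoidAlgebra.coeff_add, Finsupp.add_apply,
      ha, hb]
  | single m c =>
    rw [CB_phi_single, AddMonoidAlgebra.coeff_single, Finsupp.single_apply]
    unfold CB_rho
    rw [AddMonoidAlgebra.liftNCRingHom_single, map_mul]
    have h0 : CB_rhoM R K q hK hq (Multiplicative.ofAdd m) =
        if q m = 0 then X ^ (K m).toNat else 0 := rfl
    rw [h0]
    by_cases h : q m = 0
    · rw [if_pos h, if_pos h, map_pow, ← hU, ← Units.val_pow_eq_pow_val, ← zpow_natCast,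
        Int.toNat_of_nonneg (hK m h)]
      rfl
    · rw [if_neg h, if_neg h, map_zero, mul_zero]

end CB_gen

section CB_main

variable {R L : Type u} [CommRing R] [AddCommGroup L] {N1 : AddSubmonoid L}

/-- evaluation of polynomials at `x^z` -/
noncomputable def CB_th (R : Type u) [CommRing R] (z : N1) : R[X] →+* AddMonoidAlgebra R N1 :=
  Polynomial.eval₂RingHom AddMonoidAlgebra.singleZeroRingHom (AddMonoidAlgebra.single z 1)

theorem CB_th_C (z : N1) (c : R) : CB_th R z (C c) = AddMonoidAlgebra.single 0 c := by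
  unfold CB_th
  rw [Polynomial.coe_eval₂RingHom, Polynomial.eval₂_C]
  rfl

theorem CB_th_X (z : N1) : CB_th R z X = AddMonoidAlgebra.single z 1 := by
  unfold CB_th
  rw [Polynomial.coe_eval₂RingHom, Polynomial.eval₂_X]

theorem CB_th_X_pow (z : N1) (d : ℕ) : CB_th R z (X ^ d) = AddMonoidAlgebra.single (d • z) 1 := by
  rw [map_pow, CB_th_X, AddMonoidAlgebra.single_pow, one_pow]

theorem CB_th_sum (z : N1) (g : R[X]) (d : ℕ) (hg : g.natDegree < d) :
    CB_th R z g = ∑ i ∈ Finset.range d, AddMonoidAlgebra.single (i • z) (g.coeff i) := by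
  unfold CB_th
  rw [Polynomial.coe_eval₂RingHom, Polynomial.eval₂_eq_sum_range' _ hg]
  refine Finset.sum_congr rfl fun i _ => ?_
  rw [AddMonoidAlgebra.single_pow, one_pow]
  show AddMonoidAlgebra.single 0 (g.coeff i) * AddMonoidAlgebra.single (i • z) 1 = _
  rw [AddMonoidAlgebra.single_mul_single, zero_add, mul_one]

theorem CB_sig (l : L →+ ℤ) (z : N1) (hz : 0 < l z.1) (z' : N1) (hzz : z + z' = 0)
    (f : R[X]) (hf : f.Monic) :
    (AddMonoidAlgebra.single (f.natDegree • z') 1 * CB_th R z f : AddMonoidAlgebra R N1) ∈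
      SigMA R N1 l := by
  set d := f.natDegree with hd
  have hl : l z'.1 = - l z.1 := by
    have h : (z + z' : N1).1 = 0 := by rw [hzz]; rfl
    have h2 : l (z.1 + z'.1) = 0 := by
      rw [← AddSubmonoid.coe_add, h, map_zero]
    rw [map_add] at h2
    omega
  have hzz' : d • z' + d • z = 0 := by
    rw [← nsmul_add, add_comm, hzz, nsmul_zero]
  refine Submonoid.subset_closure ?_
  intro m hm
  have h1 : AddMonoidAlgebra.single (d • z') 1 * CB_th R z f - 1 =
      AddMonoidAlgebra.single (d • z') 1 * CB_th R z (f - X ^ d) := by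
    rw [map_sub, mul_sub, CB_th_X_pow, AddMonoidAlgebra.single_mul_single, hzz', one_mul]
    rfl
  rw [h1]
  rcases eq_or_ne (f - X ^ d) 0 with h | h
  · rw [h, map_zero, mul_zero]
    rfl
  · have h2 : (f - X ^ d).natDegree < d := by
      refine (Polynomial.natDegree_lt_iff_degree_lt h).2 ?_
      haveI : Nontrivial R := by
        by_contra hn
        rw [not_nontrivial_iff_subsingleton] at hn
        exact h (Subsingleton.elim _ _)
      have h3 : f.degree = (d : WithBot ℕ) := Polynomial.degree_eq_natDegree hf.ne_zero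
      have h5 : (X ^ d : R[X]).degree = f.degree := by
        rw [h3]
        exact Polynomial.degree_X_pow d
      have h4 : (f - X ^ d).degree < f.degree := by
        refine Polynomial.degree_sub_lt_left h5.symm hf.ne_zero ?_
        rw [hf.leadingCoeff, (monic_X_pow d).leadingCoeff]
      rwa [h3] at h4
    rw [CB_th_sum z _ d h2, Finset.mul_sum, AddMonoidAlgebra.coeff_sum,
      Finsupp.finset_sum_apply]
    refine Finset.sum_eq_zero fun i hi => ?_
    rw [AddMonoidAlgebra.single_mul_single, AddMonoidAlgebra.coeff_single]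
    refine Finsupp.single_eq_of_ne ?_
    intro he
    have hi' := Finset.mem_range.mp hi
    have h3 : l m.1 = (i : ℤ) * l z.1 - (d : ℤ) * l z.1 := by
      rw [he, AddSubmonoid.coe_add, map_add, AddSubmonoidClass.coe_nsmul,
        AddSubmonoidClass.coe_nsmul, map_nsmul, map_nsmul, hl, nsmul_eq_mul, nsmul_eq_mul]
      ring
    have h4 : ((i : ℤ) - d) * l z.1 < 0 := by
      refine mul_neg_of_neg_of_pos ?_ hz
      have : (i : ℤ) < d := by exact_mod_cast hi'
      linarith
    have h5 : (0 : ℤ) ≤ (i : ℤ) * l z.1 - (d : ℤ) * l z.1 := by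
      rw [← h3]; exact hm
    linarith [h4, h5, sub_mul (i : ℤ) d (l z.1)]

/-- monic polynomials in `x^z` become invertible -/
theorem CB_unit {F : Type u} [CommRing F] [Algebra (AddMonoidAlgebra R N1) F]
    (l : L →+ ℤ) [IsLocalization (SigMA R N1 l) F] (z : N1) (hz : 0 < l z.1) (z' : N1)
    (hzz : z + z' = 0) (f : R[X]) (hf : f.Monic) :
    IsUnit (algebraMap (AddMonoidAlgebra R N1) F (CB_th R z f)) := by
  have h6 := IsLocalization.map_units F
    (⟨_, CB_sig l z hz z' hzz f hf⟩ : SigMA R N1 l)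
  rw [map_mul] at h6
  exact isUnit_of_mul_isUnit_right h6

theorem CB_incl_single {N N' : AddSubmonoid L} (h : N ≤ N') (a : N) (b : R) :
    incl R h (AddMonoidAlgebra.single a b) =
      AddMonoidAlgebra.single (AddSubmonoid.inclusion h a) b := by
  unfold incl
  simp

theorem CB_phi_incl {N N' : AddSubmonoid L} (h : N ≤ N') {P : Type*} [AddCommMonoid P]
    {D : Type*} [CommRing D] (f : R →+* D) (U : Dˣ) (K : N' →+ ℤ) (q : N' →+ P)
    (x : AddMonoidAlgebra R N) :
    CB_phi f U K q (incl R h x) =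
      CB_phi f U (K.comp (AddSubmonoid.inclusion h)) (q.comp (AddSubmonoid.inclusion h)) x := by
  induction x using AddMonoidAlgebra.induction_linear with
  | zero => rw [map_zero, map_zero, map_zero]
  | add a b ha hb => rw [map_add, map_add, map_add, ha, hb]
  | single m c =>
    rw [CB_incl_single, CB_phi_single, CB_phi_single]
    rfl

theorem CB_pos {s : ℕ} {a : Fin s → L →+ ℤ} {L' : AddSubgroup L}
    (h3 : ∀ m ∈ L', (∀ j : Fin s, a j m = 0) → m = 0) {x y : L} (hx : x ∈ L')
    (hx' : ∀ j, 0 ≤ a j x) (hy' : ∀ j, 0 ≤ a j y) (h : x + y = 0) : x = 0 := by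
  refine h3 x hx fun j => ?_
  have h1 : a j x + a j y = 0 := by rw [← map_add, h, map_zero]
  have h2 := hx' j
  have h4 := hy' j
  omega

end CB_main

theorem CB_part1 {R L : Type u} [CommRing R] [AddCommGroup L] (n s : ℕ) (a : Fin s → L →+ ℤ)
    (l : L →+ ℤ) (h : AllComp n (AddMonoidAlgebra R
      (Nmon (fun j : Fin s => (a j).comp l.ker.subtype)))) :
    AllComp n (AddMonoidAlgebra R (zeroPart (Nmon a) l)) := by
  let e : (Nmon (fun j : Fin s => (a j).comp l.ker.subtype)) ≃+ (zeroPart (Nmon a) l) :=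
    { toFun := fun x => ⟨⟨(x.1 : L), fun j => x.2 j, by
        have h1 : l (x.1 : L) = 0 := x.1.2
        rw [h1]⟩, x.1.2⟩
      invFun := fun y => ⟨⟨y.1.1, y.2⟩, fun j => y.1.2.1 j⟩
      left_inv := fun x => rfl
      right_inv := fun y => rfl
      map_add' := fun x y => rfl }
  exact CB_transfer (AddMonoidAlgebra.mapDomainRingEquiv R e) h

/-- the degree on `N'` -/
def CB_deg {L : Type*} [AddCommGroup L] {s : ℕ} (a : Fin s → L →+ ℤ) : Nmon a →+ ℕ where
  toFun := fun x => ∑ j : Fin s, (a j x.1).toNat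
  map_zero' := by
    refine Finset.sum_eq_zero fun j _ => ?_
    have : a j ((0 : Nmon a).1) = 0 := map_zero (a j)
    rw [this]; rfl
  map_add' := fun x y => by
    rw [← Finset.sum_add_distrib]
    refine Finset.sum_congr rfl fun j _ => ?_
    have : a j ((x + y : Nmon a).1) = a j x.1 + a j y.1 := map_add (a j) _ _
    rw [this]
    exact Int.toNat_add (x.2 j) (y.2 j)

theorem CB_deg_eq {L : Type*} [AddCommGroup L] {s : ℕ} (a : Fin s → L →+ ℤ)
    (h : ∀ m, (∀ j, a j m = 0) → m = 0) (x : Nmon a) (hx : CB_deg a x = 0) : x = 0 := by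
  have h4 : ∀ j ∈ Finset.univ, (a j x.1).toNat = 0 := Finset.sum_eq_zero_iff.mp hx
  refine Subtype.ext (h _ fun j => ?_)
  have h6 := h4 j (Finset.mem_univ j)
  have h7 : 0 ≤ a j x.1 := x.2 j
  omega

/-- the core of the argument over abstract localizations -/
theorem CB_core (hQM : QM_stmt.{u}) (hRAO : RAO_stmt.{u})
    (n : ℕ) (hn : 3 ≤ n) (R L : Type u) [CommRing R]
    [AddCommGroup L] (s : ℕ) (a : Fin s → L →+ ℤ) (l : L →+ ℤ) (z : L) (L' : AddSubgroup L)
    (hCC : CC n R) (hz : 0 < l z) (hza : ∀ j : Fin s, a j z = 0)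
    (h1 : ∀ m : L, ∃ (k : ℤ) (m' : L), m' ∈ L' ∧ m = k • z + m')
    (h2 : ∀ (k : ℤ), k • z ∈ L' → k = 0)
    (h3 : ∀ m ∈ L', (∀ j : Fin s, a j m = 0) → m = 0)
    (D : Type u) [CommRing D] [Algebra R[X] D] [IsLocalization (monicSub R) D]
    (F : Type u) [CommRing F] [Algebra (AddMonoidAlgebra R (Nmon a)) F]
    [IsLocalization (SigMA R (Nmon a) l) F]
    (hInd : ∀ (p : Ideal D) [p.IsPrime],
      AllComp n (AddMonoidAlgebra (Localization.AtPrime p)
        (Nmon (fun j : Fin s => (a j).comp L'.subtype))))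
    (v : Fin n → AddMonoidAlgebra R (posPart (Nmon a) l)) (hv : Um v) :
    Comp (fun i => algebraMap (AddMonoidAlgebra R (Nmon a)) F
      (incl R (posPart_le (Nmon a) l) (v i))) := by
  obtain ⟨K, p, hm⟩ := CB_coord z L' h1 h2
  have haj : ∀ (j : Fin s) (m : L), a j m = a j (p m : L) := by
    intro j m
    nth_rewrite 1 [hm m]
    rw [map_add, map_zsmul, hza, smul_zero, zero_add]
  have hl : ∀ m : L, (p m : L) = 0 → l m = K m * l z := by
    intro m h
    nth_rewrite 1 [hm m]
    rw [map_add, map_zsmul, h, map_zero, add_zero, smul_eq_mul]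
  let q : Nmon a →+ Nmon (fun j : Fin s => (a j).comp L'.subtype) :=
    { toFun := fun m => ⟨p m.1, fun j => by
        show 0 ≤ a j (p m.1 : L)
        rw [← haj]; exact m.2 j⟩
      map_zero' := Subtype.ext (map_zero p)
      map_add' := fun x y => Subtype.ext (map_add p x.1 y.1) }
  let K1 : Nmon a →+ ℤ := K.comp (Nmon a).subtype
  let e' : Nmon (fun j : Fin s => (a j).comp L'.subtype) →+ Nmon a :=
    { toFun := fun x => ⟨(x.1 : L), fun j => x.2 j⟩
      map_zero' := rfl
      map_add' := fun x y => rfl }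
  let zk : ℤ →+ Nmon a :=
    { toFun := fun k => ⟨k • z, fun j => by rw [map_zsmul, hza, smul_zero]⟩
      map_zero' := Subtype.ext (zero_smul ℤ z)
      map_add' := fun x y => Subtype.ext (add_smul x y z) }
  have hzk1 : zk 1 = ⟨z, fun j => by rw [hza j]⟩ := Subtype.ext (one_smul ℤ z)
  have hzz : zk 1 + zk (-1) = 0 := by
    rw [← map_add]
    exact map_zero zk
  have hz1 : 0 < l (zk 1).1 := by
    rw [hzk1]; exact hz
  have hunits : ∀ y : monicSub R, IsUnit
      (((algebraMap (AddMonoidAlgebra R (Nmon a)) F).comp (CB_th R (zk 1))) (y : R[X])) :=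
    fun y => CB_unit l (zk 1) hz1 (zk (-1)) hzz y.1 y.2
  let f' : D →+* F := IsLocalization.lift (M := monicSub R) hunits
  have hf' : ∀ x : R[X], f' (algebraMap R[X] D x) =
      algebraMap (AddMonoidAlgebra R (Nmon a)) F (CB_th R (zk 1) x) :=
    fun x => IsLocalization.lift_eq _ x
  let U : Dˣ := IsUnit.unit (IsLocalization.map_units D (⟨X, monic_X⟩ : monicSub R))
  have hU : (U : D) = algebraMap R[X] D X := rfl
  have hpsi : ∀ x : AddMonoidAlgebra R (Nmon a),
      CB_psi f' (algebraMap (AddMonoidAlgebra R (Nmon a)) F) e'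
        (CB_phi ((algebraMap R[X] D).comp C) U K1 q x) =
      algebraMap (AddMonoidAlgebra R (Nmon a)) F x := by
    refine CB_psi_phi _ f' _ U K1 q e' zk ?_ ?_ ?_
    · intro c
      rw [RingHom.comp_apply, hf', CB_th_C]
    · rw [hU, hf', CB_th_X]
    · intro m
      exact Subtype.ext (hm m.1).symm
  -- the face
  have hK : ∀ m : posPart (Nmon a) l, q (AddSubmonoid.inclusion (posPart_le (Nmon a) l) m) = 0 →
      0 ≤ K m.1 := by
    intro m h
    have h0 : (p m.1 : L) = 0 := by
      have h6 : (q (AddSubmonoid.inclusion (posPart_le (Nmon a) l) m)).1 = 0 := by rw [h]; rfl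
      have h7 : p m.1 = 0 := h6
      rw [h7]; rfl
    have h4 : 0 ≤ l m.1 := m.2.2
    rw [hl _ h0] at h4
    by_contra hneg
    have : K m.1 * l z < 0 := mul_neg_of_neg_of_pos (not_le.mp hneg) hz
    omega
  have hq : ∀ m m' : posPart (Nmon a) l,
      q (AddSubmonoid.inclusion (posPart_le (Nmon a) l) (m + m')) = 0 →
      q (AddSubmonoid.inclusion (posPart_le (Nmon a) l) m) = 0 := by
    intro m m' h
    have h0 : (p m.1 : L) + (p m'.1 : L) = 0 := by
      have h6 : (q (AddSubmonoid.inclusion (posPart_le (Nmon a) l) (m + m'))).1 = 0 := by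
        rw [h]; rfl
      have h7 : p (m.1 + m'.1) = 0 := h6
      rw [map_add] at h7
      rw [← AddSubgroup.coe_add, h7]; rfl
    have h8 : (p m.1 : L) = 0 := by
      refine CB_pos h3 (p m.1).2 (fun j => ?_) (fun j => ?_) h0
      · rw [← haj]; exact m.2.1 j
      · rw [← haj]; exact m'.2.1 j
    exact Subtype.ext (Subtype.ext h8)
  have hinj : ∀ m : L', (∀ j : Fin s, (a j).comp L'.subtype m = 0) → m = 0 :=
    fun m h => Subtype.ext (h3 m.1 m.2 h)
  set phi := (CB_phi ((algebraMap R[X] D).comp C) U K1 q).comp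
    (incl R (posPart_le (Nmon a) l)).toRingHom with hphi
  have hUm : Um (fun i => phi (v i)) := hv.map phi
  have hG := hQM D (Nmon (fun j : Fin s => (a j).comp L'.subtype))
    (CB_deg _) (CB_deg_eq _ hinj) (Fin n) _ hUm (fun P hP => hInd P _ (hUm.map _))
  set rho := CB_rho R (K1.comp (AddSubmonoid.inclusion (posPart_le (Nmon a) l)))
    (q.comp (AddSubmonoid.inclusion (posPart_le (Nmon a) l))) hK hq with hrho
  have hC0 : Comp (fun i => rho (v i)) := hRAO n hn R hCC _ (hv.map rho)
  have hrc : ∀ x, (phi x).coeff 0 = algebraMap R[X] D (rho x) := by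
    intro x
    have h4 : phi x = CB_phi ((algebraMap R[X] D).comp C) U
        (K1.comp (AddSubmonoid.inclusion (posPart_le (Nmon a) l)))
        (q.comp (AddSubmonoid.inclusion (posPart_le (Nmon a) l))) x := CB_phi_incl _ _ _ _ _ x
    rw [h4]
    exact CB_rho_coeff (algebraMap R[X] D) U hU _ _ hK hq x
  have hC1 : Comp (fun i => (AddMonoidAlgebra.single 0 ((phi (v i)).coeff 0) :
      AddMonoidAlgebra D (Nmon (fun j : Fin s => (a j).comp L'.subtype)))) := by
    have h4 := (hC0.map (algebraMap R[X] D)).map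
      (AddMonoidAlgebra.singleZeroRingHom :
        D →+* AddMonoidAlgebra D (Nmon (fun j : Fin s => (a j).comp L'.subtype)))
    have h5 : (fun i => (AddMonoidAlgebra.single 0 ((phi (v i)).coeff 0) :
        AddMonoidAlgebra D (Nmon (fun j : Fin s => (a j).comp L'.subtype)))) =
        fun i => (AddMonoidAlgebra.singleZeroRingHom :
          D →+* AddMonoidAlgebra D (Nmon (fun j : Fin s => (a j).comp L'.subtype)))
          (algebraMap R[X] D (rho (v i))) := by
      funext i
      rw [hrc]
      rfl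
    rw [h5]
    exact h4
  have hC2 := (hG.symm.comp hC1).map (CB_psi f' (algebraMap (AddMonoidAlgebra R (Nmon a)) F) e')
  have h6 : (fun i => algebraMap (AddMonoidAlgebra R (Nmon a)) F
      (incl R (posPart_le (Nmon a) l) (v i))) =
      fun i => CB_psi f' (algebraMap (AddMonoidAlgebra R (Nmon a)) F) e' (phi (v i)) := by
    funext i
    exact (hpsi _).symm
  rw [h6]
  exact hC2

theorem CB (hTM : TM_stmt.{u}) (hQM : QM_stmt.{u}) (hRZ : RZ_stmt.{u}) : CB_stmt.{u} := by
  intro n hn hRAO R L _ _ s a z L' hCC hz hza h1 h2 h3 hI1 hI2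
  have hN : Nmon a = posPart (Nmon (fun j : Fin s => a j.castSucc)) (a (Fin.last s)) := by
    ext m
    constructor
    · intro h
      exact ⟨fun j => h j.castSucc, h (Fin.last s)⟩
    · rintro ⟨h, h'⟩ i
      induction i using Fin.lastCases with
      | last => exact h'
      | cast j => exact h j
  rw [hN]
  intro v hv
  refine hTM R L _ _ (Fin n) (by rw [Fintype.card_fin]; omega) v hv ?_ ?_
  · exact CB_core hQM hRAO n hn R L s (fun j => a j.castSucc) (a (Fin.last s)) z L' hCC hz hza
      h1 h2 h3 (RX R) (Localization (SigMA R (Nmon (fun j : Fin s => a j.castSucc))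
        (a (Fin.last s)))) (fun p hp => hI2 _ (hRZ n hn R hCC p)) v hv
  · have h4 := CB_part1 n s (fun j => a j.castSucc) (a (Fin.last s)) hI1
    exact h4 _ (hv.map (retr R (zeroPart _ (a (Fin.last s)))
      (zeroPart_isFace _ (a (Fin.last s)))).toRingHom)

end GB
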