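import Pool.Agent.helper70.GB.SpecN

set_option linter.all false
set_option autoImplicit false

/-!
# DE (MP_7933bc_al): descent by subintegral steps
-/

open Matrix

namespace GB

universe u

section DE_gen

variable {B : Type*} [CommRing B] {ι : Type*} [Fintype ι] [DecidableEq ι]

/-- completability inside a subring, for rows of the big ring -/
def DE_C (S : Subring B) (w : ι → B) : Prop :=
  ∃ (i : ι) (M : Matrix ι ι B), (∀ a b, M a b ∈ S) ∧ (∃ x ∈ S, M.det * x = 1) ∧ M i = w

omit [DecidableEq ι] in
/-- unimodularity inside a subring -/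
def DE_U (S : Subring B) (w : ι → B) : Prop :=
  (∀ i, w i ∈ S) ∧ ∃ y : ι → B, (∀ i, y i ∈ S) ∧ w ⬝ᵥ y = 1

theorem DE_C_mono {S T : Subring B} (h : S ≤ T) {w : ι → B} (hw : DE_C S w) : DE_C T w := by
  obtain ⟨i, M, h1, ⟨x, hx, h2⟩, h3⟩ := hw
  exact ⟨i, M, fun a b => h (h1 a b), ⟨x, h hx, h2⟩, h3⟩

omit [DecidableEq ι] in
theorem DE_U_mono {S T : Subring B} (h : S ≤ T) {w : ι → B} (hw : DE_U S w) : DE_U T w := by
  obtain ⟨h1, y, h2, h3⟩ := hw
  exact ⟨fun i => h (h1 i), y, fun i => h (h2 i), h3⟩

theorem DE_comp_iff {A : Type*} [CommRing A] (j : A →+* B) (hj : Function.Injective j)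
    (v : ι → A) : Comp v ↔ DE_C j.range (fun i => j (v i)) := by
  constructor
  · rintro ⟨i, M, hM, rfl⟩
    refine ⟨i, M.map j, fun a b => ⟨M a b, rfl⟩, ?_, rfl⟩
    obtain ⟨x, hx⟩ := hM.exists_right_inv
    refine ⟨j x, ⟨x, rfl⟩, ?_⟩
    have h1 : (M.map j).det = j M.det := by
      rw [RingHom.map_det]; rfl
    rw [h1, ← map_mul, hx, map_one]
  · rintro ⟨i, M, h1, ⟨x, ⟨x', hx'⟩, h2⟩, h3⟩
    choose M' hM' using h1
    have h4 : M = (Matrix.of M').map j := by
      ext a b
      exact (hM' a b).symm
    refine ⟨i, Matrix.of M', ?_, ?_⟩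
    · refine IsUnit.of_mul_eq_one x' (hj ?_)
      have h1 : ((Matrix.of M').map j).det = j (Matrix.of M').det := by
        rw [RingHom.map_det]; rfl
      rw [map_mul, map_one, ← h1, ← h4, hx', h2]
    · funext b
      refine hj ?_
      have := congrFun h3 b
      rw [← this]
      exact hM' i b

theorem DE_comp_iff' (S : Subring B) (v : ι → S) : Comp v ↔ DE_C S (fun i => (v i : B)) := by
  have h := DE_comp_iff S.subtype Subtype.val_injective v
  rwa [Subring.range_subtype] at h

end DE_gen

theorem DE_SI (hSI : SI_stmt.{u}) {B : Type u} [CommRing B] {ι : Type} [Fintype ι] [DecidableEq ι]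
    (S T : Subring B) (b : B) (hST : S ≤ T) (h2 : b ^ 2 ∈ S) (h3 : b ^ 3 ∈ S)
    (hT : ∀ x ∈ T, ∃ y ∈ S, ∃ z ∈ S, x = y + z * b) (hb : b ∈ T) (hι : 2 ≤ Fintype.card ι)
    (w : ι → B) (hU : DE_U S w) (hC : DE_C T w) : DE_C S w := by
  obtain ⟨hw, y, hy, hwy⟩ := hU
  have h := hSI B S T b hST h2 h3 hT hb ι hι (fun i => ⟨w i, hw i⟩)
    ⟨fun i => ⟨y i, hy i⟩, by
      apply Subtype.ext
      have : ((((fun i => (⟨w i, hw i⟩ : S)) ⬝ᵥ (fun i => (⟨y i, hy i⟩ : S)) : S)) : B) =
          w ⬝ᵥ y := by
        unfold dotProduct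
        rw [AddSubmonoidClass.coe_finset_sum]
        rfl
      rw [this, hwy]
      rfl⟩
    ((DE_comp_iff' T _).2 hC)
  exact (DE_comp_iff' S _).1 h

section DE_mon

variable {R G : Type u} [CommRing R] [AddCommGroup G]

/-- the inclusion of the monoid algebra in the group algebra -/
noncomputable def DE_j (R : Type u) [CommRing R] (N : AddSubmonoid G) :
    AddMonoidAlgebra R N →+* AddMonoidAlgebra R G :=
  AddMonoidAlgebra.mapDomainRingHom R N.subtype

theorem DE_j_apply (N : AddSubmonoid G) (x : AddMonoidAlgebra R N) :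
    DE_j R N x = AddMonoidAlgebra.mapDomain N.subtype x := rfl

theorem DE_j_inj (N : AddSubmonoid G) : Function.Injective (DE_j R N) :=
  AddMonoidAlgebra.mapDomain_injective Subtype.val_injective

theorem DE_j_single (N : AddSubmonoid G) (g : N) (c : R) :
    DE_j R N (AddMonoidAlgebra.single g c) = AddMonoidAlgebra.single (g : G) c := by
  rw [DE_j_apply, AddMonoidAlgebra.mapDomain_single]
  rfl

theorem DE_j_incl {N N' : AddSubmonoid G} (h : N ≤ N') (x : AddMonoidAlgebra R N) :
    DE_j R N' (incl R h x) = DE_j R N x := by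
  induction x using AddMonoidAlgebra.induction_linear with
  | zero => simp
  | add f g hf hg => rw [map_add, map_add, map_add, hf, hg]
  | single a b =>
    rw [DE_j_single]
    have : incl R h (AddMonoidAlgebra.single a b) =
        AddMonoidAlgebra.single (AddSubmonoid.inclusion h a) b := by
      unfold incl
      simp
    rw [this, DE_j_single]
    rfl

theorem DE_mem {N : AddSubmonoid G} {x : AddMonoidAlgebra R G} :
    x ∈ (DE_j R N).range ↔ ∀ g ∈ x.coeff.support, g ∈ N := by
  classical
  constructor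
  · rintro ⟨y, rfl⟩ g hg
    have h1 : (DE_j R N y).coeff = Finsupp.mapDomain N.subtype y.coeff := rfl
    rw [h1] at hg
    have := Finsupp.mapDomain_support hg
    obtain ⟨a, _, rfl⟩ := Finset.mem_image.mp this
    exact a.2
  · intro h
    refine ⟨AddMonoidAlgebra.comapDomain N.subtype Subtype.val_injective x, ?_⟩
    rw [DE_j_apply]
    refine AddMonoidAlgebra.mapDomain_comapDomain ?_ _
    intro g hg
    exact ⟨⟨g, h g hg⟩, rfl⟩

theorem DE_range_mono {N N' : AddSubmonoid G} (h : N ≤ N') :
    (DE_j R N).range ≤ (DE_j R N').range := by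
  intro x hx
  rw [DE_mem] at hx ⊢
  exact fun g hg => h (hx g hg)

theorem DE_single_mem {N : AddSubmonoid G} {g : G} (hg : g ∈ N) (c : R) :
    AddMonoidAlgebra.single g c ∈ (DE_j R N).range :=
  ⟨AddMonoidAlgebra.single ⟨g, hg⟩ c, DE_j_single N _ c⟩

/-- one subintegral step -/
theorem DE_step (hSI : SI_stmt.{u}) {ι : Type} [Fintype ι] [DecidableEq ι]
    (hι : 2 ≤ Fintype.card ι) (u : G) (w : ι → AddMonoidAlgebra R G) :
    ∀ (k₀ : ℕ) (N : AddSubmonoid G), (∀ k, k₀ ≤ k → k • u ∈ N) → DE_U (DE_j R N).range w →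
      DE_C (DE_j R (AddSubmonoid.closure ((N : Set G) ∪ {u}))).range w →
      DE_C (DE_j R N).range w := by
  intro k₀
  induction k₀ with
  | zero =>
    intro N hN _ hC
    have h1 : u ∈ N := by
      have := hN 1 (Nat.zero_le _)
      rwa [one_nsmul] at this
    refine DE_C_mono (DE_range_mono ?_) hC
    rw [AddSubmonoid.closure_le]
    rintro x (hx | hx)
    · exact hx
    · rw [Set.mem_singleton_iff] at hx
      rw [hx]; exact h1
  | succ k₀ ih =>
    intro N hN hU hC
    rcases Nat.eq_zero_or_pos k₀ with h0 | h0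
    · subst h0
      have h1 : u ∈ N := by
        have := hN 1 (le_refl _)
        rwa [one_nsmul] at this
      refine DE_C_mono (DE_range_mono ?_) hC
      rw [AddSubmonoid.closure_le]
      rintro x (hx | hx)
      · exact hx
      · rw [Set.mem_singleton_iff] at hx
        rw [hx]; exact h1
    · set N1 := AddSubmonoid.closure ((N : Set G) ∪ {k₀ • u}) with hN1
      have hle : N ≤ N1 := fun x hx => AddSubmonoid.subset_closure (Or.inl hx)
      have hk : k₀ • u ∈ N1 := AddSubmonoid.subset_closure (Or.inr rfl)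
      have h2k : (2 * k₀) • u ∈ N := hN _ (by omega)
      have h3k : (3 * k₀) • u ∈ N := hN _ (by omega)
      have hC1 : DE_C (DE_j R N1).range w := by
        refine ih N1 ?_ (DE_U_mono (DE_range_mono hle) hU) (DE_C_mono (DE_range_mono ?_) hC)
        · intro k hkk
          rcases Nat.eq_or_lt_of_le hkk with h | h
          · rw [← h]; exact hk
          · exact hle (hN k h)
        · refine AddSubmonoid.closure_mono ?_
          exact Set.union_subset_union_left _ hle
      -- the description of `N1`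
      have hdesc : ∀ g ∈ N1, g ∈ N ∨ g - k₀ • u ∈ N := by
        intro g hg
        induction hg using AddSubmonoid.closure_induction with
        | mem x hx =>
          rcases hx with hx | hx
          · exact Or.inl hx
          · right
            rw [Set.mem_singleton_iff] at hx
            rw [hx, sub_self]
            exact N.zero_mem
        | zero => exact Or.inl N.zero_mem
        | add x y _ _ hx hy =>
          rcases hx with hx | hx
          · rcases hy with hy | hy
            · exact Or.inl (N.add_mem hx hy)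
            · right
              have := N.add_mem hx hy
              rwa [← add_sub_assoc] at this
          · rcases hy with hy | hy
            · right
              have := N.add_mem hx hy
              rwa [sub_add_eq_add_sub] at this
            · left
              have := N.add_mem (N.add_mem hx hy) h2k
              have he : x - k₀ • u + (y - k₀ • u) + (2 * k₀) • u = x + y := by
                rw [two_mul, add_nsmul]
                abel
              rwa [he] at this
      refine DE_SI hSI (DE_j R N).range (DE_j R N1).range (AddMonoidAlgebra.single (k₀ • u) 1)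
        (DE_range_mono hle) ?_ ?_ ?_ (DE_single_mem hk 1) hι w hU hC1
      · rw [AddMonoidAlgebra.single_pow, one_pow, ← mul_nsmul']
        exact DE_single_mem h2k 1
      · rw [AddMonoidAlgebra.single_pow, one_pow, ← mul_nsmul']
        exact DE_single_mem h3k 1
      · rintro x ⟨x', rfl⟩
        induction x' using AddMonoidAlgebra.induction_linear with
        | zero => exact ⟨0, Subring.zero_mem _, 0, Subring.zero_mem _, by simp⟩
        | add f g hf hg =>
          obtain ⟨y1, hy1, z1, hz1, e1⟩ := hf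
          obtain ⟨y2, hy2, z2, hz2, e2⟩ := hg
          refine ⟨y1 + y2, Subring.add_mem _ hy1 hy2, z1 + z2, Subring.add_mem _ hz1 hz2, ?_⟩
          rw [map_add, e1, e2]
          ring
        | single a c =>
          rw [DE_j_single]
          rcases hdesc a.1 a.2 with h | h
          · exact ⟨_, DE_single_mem h c, 0, Subring.zero_mem _, by simp⟩
          · refine ⟨0, Subring.zero_mem _, _, DE_single_mem h c, ?_⟩
            rw [zero_add, AddMonoidAlgebra.single_mul_single, mul_one, sub_add_cancel]

/-- finite sets of adjoined elements -/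
theorem DE_fin (hSI : SI_stmt.{u}) {ι : Type} [Fintype ι] [DecidableEq ι]
    (hι : 2 ≤ Fintype.card ι) (w : ι → AddMonoidAlgebra R G) (M : AddSubmonoid G)
    (F : Set G) (hF : F.Finite) :
    (∀ u ∈ F, ∃ k₀ : ℕ, ∀ k, k₀ ≤ k → k • u ∈ M) →
    ∀ N : AddSubmonoid G, M ≤ N → DE_U (DE_j R N).range w →
      DE_C (DE_j R (AddSubmonoid.closure ((N : Set G) ∪ F))).range w →
      DE_C (DE_j R N).range w := by
  induction F, hF using Set.Finite.induction_on with
  | empty =>
    intro _ N _ _ hC
    refine DE_C_mono (DE_range_mono ?_) hC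
    rw [Set.union_empty, AddSubmonoid.closure_eq]
  | @insert u F _ _ ih =>
    intro hM N hMN hU hC
    obtain ⟨k₀, hk⟩ := hM u (Set.mem_insert _ _)
    set N2 := AddSubmonoid.closure ((N : Set G) ∪ {u}) with hN2
    have hle : N ≤ N2 := fun x hx => AddSubmonoid.subset_closure (Or.inl hx)
    have hC2 : DE_C (DE_j R N2).range w := by
      refine ih (fun x hx => hM x (Set.mem_insert_of_mem _ hx)) N2 (hMN.trans hle)
        (DE_U_mono (DE_range_mono hle) hU) (DE_C_mono (DE_range_mono ?_) hC)
      rw [AddSubmonoid.closure_le]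
      rintro x (hx | hx)
      · exact AddSubmonoid.subset_closure (Or.inl (hle hx))
      · rcases Set.mem_insert_iff.mp hx with h | h
        · rw [h]
          exact AddSubmonoid.subset_closure (Or.inl (AddSubmonoid.subset_closure (Or.inr rfl)))
        · exact AddSubmonoid.subset_closure (Or.inr h)
    exact DE_step hSI hι u w k₀ N (fun k h => hMN (hk k h)) hU hC2

theorem DE_fin1 (M : AddSubmonoid G) (I : Set G) (g : G)
    (hg : g ∈ AddSubmonoid.closure ((M : Set G) ∪ I)) :
    ∃ F : Set G, F.Finite ∧ F ⊆ I ∧ g ∈ AddSubmonoid.closure ((M : Set G) ∪ F) := by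
  induction hg using AddSubmonoid.closure_induction with
  | mem x hx =>
    rcases hx with hx | hx
    · exact ⟨∅, Set.finite_empty, Set.empty_subset _, AddSubmonoid.subset_closure (Or.inl hx)⟩
    · exact ⟨{x}, Set.finite_singleton x, Set.singleton_subset_iff.mpr hx,
        AddSubmonoid.subset_closure (Or.inr rfl)⟩
  | zero => exact ⟨∅, Set.finite_empty, Set.empty_subset _, AddSubmonoid.zero_mem _⟩
  | add x y _ _ hx hy =>
    obtain ⟨F1, h1, h2, h3⟩ := hx
    obtain ⟨F2, h4, h5, h6⟩ := hy
    refine ⟨F1 ∪ F2, h1.union h4, Set.union_subset h2 h5, AddSubmonoid.add_mem _ ?_ ?_⟩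
    · exact AddSubmonoid.closure_mono (Set.union_subset_union_right _ Set.subset_union_left) h3
    · exact AddSubmonoid.closure_mono (Set.union_subset_union_right _ Set.subset_union_right) h6

theorem DE_fin2 (M : AddSubmonoid G) (I : Set G) (x : AddMonoidAlgebra R G)
    (hx : x ∈ (DE_j R (AddSubmonoid.closure ((M : Set G) ∪ I))).range) :
    ∃ F : Set G, F.Finite ∧ F ⊆ I ∧
      x ∈ (DE_j R (AddSubmonoid.closure ((M : Set G) ∪ F))).range := by
  rw [DE_mem] at hx
  have h := fun g (hg : g ∈ x.coeff.support) => DE_fin1 M I g (hx g hg)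
  choose! F h1 h2 h3 using h
  refine ⟨⋃ g ∈ x.coeff.support, F g, ?_, ?_, ?_⟩
  · exact Set.Finite.biUnion (Finset.finite_toSet _) fun g hg => h1 g hg
  · exact Set.iUnion₂_subset fun g hg => h2 g hg
  · rw [DE_mem]
    intro g hg
    refine AddSubmonoid.closure_mono (Set.union_subset_union_right _ ?_) (h3 g hg)
    exact Set.subset_biUnion_of_mem (u := fun g => F g) hg

theorem DE_fin3 {ι : Type} [Fintype ι] [DecidableEq ι] (M : AddSubmonoid G) (I : Set G)
    (w : ι → AddMonoidAlgebra R G)
    (hC : DE_C (DE_j R (AddSubmonoid.closure ((M : Set G) ∪ I))).range w) :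
    ∃ F : Set G, F.Finite ∧ F ⊆ I ∧
      DE_C (DE_j R (AddSubmonoid.closure ((M : Set G) ∪ F))).range w := by
  obtain ⟨i, Mx, h1, ⟨x, hx, h2⟩, h3⟩ := hC
  have h := fun a b => DE_fin2 M I (Mx a b) (h1 a b)
  choose F hF1 hF2 hF3 using h
  obtain ⟨F0, hF4, hF5, hF6⟩ := DE_fin2 M I x hx
  refine ⟨F0 ∪ ⋃ a, ⋃ b, F a b, ?_, ?_, i, Mx, ?_, ⟨x, ?_, h2⟩, h3⟩
  · exact hF4.union (Set.finite_iUnion fun a => Set.finite_iUnion fun b => hF1 a b)
  · exact Set.union_subset hF5 (Set.iUnion_subset fun a => Set.iUnion_subset fun b => hF2 a b)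
  · intro a b
    refine DE_range_mono (AddSubmonoid.closure_mono (Set.union_subset_union_right _ ?_)) (hF3 a b)
    refine Set.Subset.trans ?_ Set.subset_union_right
    exact (Set.subset_iUnion (F a) b).trans (Set.subset_iUnion (fun a => ⋃ b, F a b) a)
  · exact DE_range_mono (AddSubmonoid.closure_mono
      (Set.union_subset_union_right _ Set.subset_union_left)) hF6

end DE_mon

theorem DE (hSI : SI_stmt.{u}) : DE_stmt.{u} := by
  intro R G _ _ M I hI M1 hM hM1 ι _ _ hι v hv hC
  have e : (fun i => DE_j R M1 (incl R hM (v i))) = fun i => DE_j R M (v i) := by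
    funext i
    exact DE_j_incl hM (v i)
  have h1 := (DE_comp_iff (DE_j R M1) (DE_j_inj M1) _).1 hC
  rw [e] at h1
  have h2 : DE_C (DE_j R (AddSubmonoid.closure ((M : Set G) ∪ I))).range
      (fun i => DE_j R M (v i)) := DE_C_mono (DE_range_mono hM1) h1
  obtain ⟨F, hF1, hF2, h3⟩ := DE_fin3 M I _ h2
  have hU : DE_U (DE_j R M).range (fun i => DE_j R M (v i)) := by
    obtain ⟨y, hy⟩ := hv
    refine ⟨fun i => ⟨v i, rfl⟩, fun i => DE_j R M (y i), fun i => ⟨y i, rfl⟩, ?_⟩
    have := congrArg (DE_j R M) hy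
    rw [map_one] at this
    rw [← this]
    unfold dotProduct
    rw [map_sum]
    exact Finset.sum_congr rfl fun i _ => (map_mul _ _ _).symm
  exact (DE_comp_iff (DE_j R M) (DE_j_inj M) v).2
    (DE_fin hSI hι _ M F hF1 (fun u hu => hI u (hF2 hu)) M le_rfl hU h3)

end GB
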